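import Pool.Agent.Q97.RF.Dm
import Pool.Agent.Q97.RF.Sp

/-!
# Moments of `P(D / log T) ζ`

Let `P` be a nonzero complex polynomial without two (possibly equal) roots `μ`, `ν` such that
`μ + conj ν = -1`, and let `g = P(D/log T) ζ = ∑ c_k ζ^(k) / (log T)^k`. Then:

* on each disc of radius `a / log T` (any fixed `a > 0`) around a point `1/2+it`, `|t-T| ≤ T/4`,
  the maximum of `|ζ|` is at most `C` times the maximum of `|g|`, for all large `T`;
* for every real `β > 0` the integral of `|g(1/2+it+w)|^β` over Gaussian windows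
  `w(t) = exp(-((t-T)/U)²)`, `1 ≤ U ≤ T / log T`, is comparable with the moment
  `M = ∫ |ζ(1/2+it)|^β w(t) dt`, uniformly in `U` and in the complex shifts `|w| ≤ A / log T`.

All derivatives `ζ^(j)` are allowed, and all the linear combinations `Q(-D/log T) ζ`, `Q` real
with `Q(x) + Q(1-x)` a nonzero constant, of the method of Levinson and Conrey.
-/

set_option autoImplicit false

open MeasureTheory Filter Metric Set
open scoped ENNReal ComplexConjugate

namespace Pool.Agent.Results.MP_39df77_nt.DifferentialOperators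

noncomputable section

/-- the function `∑ c_k ζ^(k)(s) / L^k`, where the `c_k` are the coefficients of `P` -/
def diffZeta (P : Polynomial ℂ) (L : ℝ) (s : ℂ) : ℂ :=
  ∑ k ∈ Finset.range (P.natDegree + 1), P.coeff k * iteratedDeriv k riemannZeta s / (L : ℂ) ^ k

/-- the Gaussian window of width `U` at `T` -/
def window (T U t : ℝ) : ℝ := Real.exp (-((t - T) / U) ^ 2)

/-- the moment of order `β` in the window -/
def moment (β T U : ℝ) : ℝ := ∫ t : ℝ, ‖riemannZeta (1 / 2 + t * Complex.I)‖ ^ β * window T U t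

theorem moment_eq (β T U : ℝ) : moment β T U = Q97.RB.MB β T U (1 / 2) := by
  unfold moment Q97.RB.MB
  have : ∀ t : ℝ, (1 / 2 + t * Complex.I : ℂ) = ((1 / 2 : ℝ) : ℂ) + t * Complex.I := by
    intro t
    norm_num
  simp only [this]
  rfl

theorem diffZeta_eq (P : Polynomial ℂ) (L : ℝ) : diffZeta P L = Q97.RF.dz P L := by
  funext s
  unfold diffZeta Q97.RF.dz
  rw [Polynomial.sum_over_range]
  intro k
  rw [zero_mul, zero_div]

theorem pt_eq (t : ℝ) : (1 / 2 + t * Complex.I : ℂ) = Q97.RD.pp t := by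
  unfold Q97.RD.pp
  norm_num

theorem result (P : Polynomial ℂ) (hP0 : P ≠ 0)
    (hP : ∀ μ ν : ℂ, P.eval μ = 0 → P.eval ν = 0 → μ + conj ν ≠ -1) :
    (∀ a : ℝ, 0 < a → ∃ C : ℝ, 0 < C ∧ ∀ᶠ T : ℝ in atTop, ∀ t : ℝ, |t - T| ≤ T / 4 →
      ∃ s' ∈ closedBall (1 / 2 + t * Complex.I : ℂ) (a / Real.log T),
        ∀ s ∈ closedBall (1 / 2 + t * Complex.I : ℂ) (a / Real.log T),
          ‖riemannZeta s‖ ≤ C * ‖diffZeta P (Real.log T) s'‖) ∧
    (∀ β : ℝ, 0 < β → ∀ A : ℝ, 0 ≤ A → ∃ c C : ℝ, 0 < c ∧ 0 < C ∧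
      ∀ᶠ T : ℝ in atTop, ∀ U : ℝ, 1 ≤ U → U ≤ T / Real.log T → ∀ w : ℂ, ‖w‖ ≤ A / Real.log T →
        ENNReal.ofReal (c * moment β T U) ≤
          ∫⁻ t : ℝ, ENNReal.ofReal (‖diffZeta P (Real.log T) (1 / 2 + t * Complex.I + w)‖ ^ β *
            window T U t) ∧
        ∫⁻ t : ℝ, ENNReal.ofReal (‖diffZeta P (Real.log T) (1 / 2 + t * Complex.I + w)‖ ^ β *
            window T U t) ≤ ENNReal.ofReal (C * moment β T U)) := by
  refine ⟨fun a ha => ?_, fun β hβ A hA => ?_⟩
  · obtain ⟨C, hC, h⟩ := Q97.RF.bigP' hP0 hP ha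
    refine ⟨C, hC, ?_⟩
    filter_upwards [h, (Q97.MM.log_div_tendsto a).eventually
      (gt_mem_nhds (show (0 : ℝ) < 1 / 4 by norm_num)),
      Real.tendsto_log_atTop.eventually (eventually_ge_atTop 1)] with T h1 h2 hL t ht
    have hL0 : 0 < Real.log T := by linarith
    rw [abs_of_nonneg (by positivity)] at h2
    rw [pt_eq, diffZeta_eq]
    have hcont : ContinuousOn (fun z => ‖Q97.RF.dz P (Real.log T) z‖)
        (closedBall (Q97.RD.pp t) (a / Real.log T)) := by
      refine ((Q97.RF.dz_analytic P (Real.log T) t).continuousOn.mono ?_).norm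
      exact closedBall_subset_ball h2
    obtain ⟨s', hs', hmax⟩ := (isCompact_closedBall (Q97.RD.pp t) (a / Real.log T)).exists_isMaxOn
      ⟨_, mem_closedBall_self (by positivity)⟩ hcont
    refine ⟨s', hs', fun s hs => ?_⟩
    refine h1 t (by linarith) _ (fun z hz => ?_) s (by rwa [mem_closedBall, dist_eq_norm] at hs)
    exact hmax (by rw [mem_closedBall, dist_eq_norm]; exact hz)
  · obtain ⟨c, hc, h1⟩ := Q97.RF.P_low one_pos (P := fun _ : Fin 1 => P)
      (fun _ => ⟨hP0, hP⟩) (β := fun _ => β) (fun _ => hβ) hA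
    obtain ⟨C, hC, h2⟩ := Q97.RF.P_up one_pos (fun _ : Fin 1 => P) (β := fun _ => β)
      (fun _ => hβ) hA
    refine ⟨c, C, hc, hC, ?_⟩
    filter_upwards [h1, h2, eventually_ge_atTop 3] with T k1 k2 hT U hU1 hU2 w hw
    have e1 := k1 U ⟨hT, hU1, hU2⟩ (fun _ => w) (fun _ => hw)
    have e2 := k2 U ⟨hT, hU1, hU2⟩ (fun _ => w) (fun _ => hw)
    simp only [Finset.univ_unique, Finset.sum_const, Finset.card_singleton, one_smul,
      Q97.RF.pd, Finset.prod_const, pow_one] at e1 e2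
    rw [moment_eq, diffZeta_eq]
    simp only [pt_eq]
    exact ⟨e1, e2⟩

end

end Pool.Agent.Results.MP_39df77_nt.DifferentialOperators
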