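import Pool.Agent.Q255.L2.Eng
import Pool.Agent.Q129.L2.MN
import Pool.Agent.Q224.L2.ME
import Pool.Agent.Q154.L2.MW
import Pool.Agent.Q65.L2.MA
import Pool.Agent.Q31.L2.MBL

/-!
# All moments of random Dirichlet polynomials on the critical line over all intervals, all joint laws of small information

Let `f` be completely multiplicative with the values `1`, `-1` at the primes. The signs at the primes may have any
joint law whatsoever; `I(x)` is the relative entropy (Kullback-Leibler divergence) of the law of the signs `f(p)`,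
`p ≤ x`, to independent fair signs. `Z_N(t) = ∑_{n ≤ N} f(n) n^{-1/2-it}`.

1. If `I(x) ≤ x^{o(1)}`, then almost surely, for all `f'` equal to `f` at all but finitely many primes, all `k ≥ 1` and `ε > 0`:
`∫_{T₁}^{T₂} |Z_N(t)|^{2k} dt = (T₂ - T₁) ∑_n d_{k,N}(n)²/n + O(X^ε √(1 + T₂ - T₁))` for all `X ≥ 1`, `N ≤ X` and all
intervals `[T₁, T₂]` in `[-X, X]`.
2. For every `0 < δ < 1` there is a law with `I(x) = O(x^δ)` and `E ∫_{-1}^1 |Z_N(t)|^{2k} dt ≥ c N^{kδ}` for all `k ≥ 1`.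
-/

set_option autoImplicit false

namespace Pool.Agent.Results.MP_39df77_nt.RandomMoments

open Finset Filter Topology MeasureTheory

/-- the sign at the prime with the number `k` (`2` has the number `0`) -/
def sign (ω : ℕ → Bool) (k : ℕ) : ℝ := if ω k then 1 else -1

/-- `f(n) = ∏_p f(p)^{v_p(n)}`, the completely multiplicative function with the sign `ω k` at the prime with the
number `k` (`Nat.count Nat.Prime p` is the number of the primes less than `p`) -/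
noncomputable def f (ω : ℕ → Bool) (n : ℕ) : ℝ :=
  n.factorization.prod fun p j => sign ω (Nat.count Nat.Prime p) ^ j

/-- `I(x)`: the relative entropy `∑_s q(s) log (2^n q(s))` of the law `q` of the signs at the `n = π(x)` primes
`p ≤ x` to independent fair signs, in nats -/
noncomputable def information (ν : Measure (ℕ → Bool)) (x : ℕ) : ℝ :=
  ∑ s : Fin (Nat.primeCounting x) → Bool, ν.real {ω | ∀ k : Fin (Nat.primeCounting x), ω k = s k} *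
    Real.log (2 ^ Nat.primeCounting x *
      ν.real {ω | ∀ k : Fin (Nat.primeCounting x), ω k = s k})

/-- `I(x) ≤ x^{o(1)}` -/
def SmallInformation (ν : Measure (ℕ → Bool)) : Prop :=
  ∀ ε : ℝ, 0 < ε → ∀ᶠ x : ℕ in atTop, information ν x ≤ (x : ℝ) ^ ε

/-- `Z_N(t) = ∑_{n ≤ N} f(n) n^{-1/2-it}` -/
noncomputable def Z (f : ℕ → ℝ) (N : ℕ) (t : ℝ) : ℂ :=
  ∑ n ∈ Icc 1 N, (f n : ℂ) * (n : ℂ) ^ (-(1 / 2 : ℂ) - t * Complex.I)

open Classical in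
/-- `d_{k,N}(n)`, the number of the `k`-tuples of numbers in `[1, N]` with the product `n` -/
def d (k N n : ℕ) : ℕ := ((Fintype.piFinset fun _ : Fin k => Icc 1 N).filter fun a => ∏ j, a j = n).card

/-- the diagonal term `∑_n d_{k,N}(n)²/n`, the mean value of `|∑_{n ≤ N} n^{-1/2-it}|^{2k}` over all real `t` -/
noncomputable def diagonal (k N : ℕ) : ℝ := ∑ n ∈ Icc 1 (N ^ k), (d k N n : ℝ) ^ 2 / n

/-! ## Translation -/

open Pool.Agent.Q255.EP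

theorem info_eq (ν : Measure (ℕ → Bool)) [IsProbabilityMeasure ν] (x : ℕ) :
    information ν x = Pool.Agent.Q255.IR.D ν (Nat.primeCounting x) := D_eq_sum ν _

theorem small_iff (ν : Measure (ℕ → Bool)) [IsProbabilityMeasure ν] :
    SmallInformation ν ↔ ∀ ε : ℝ, 0 < ε → ∀ᶠ x : ℕ in atTop,
      Pool.Agent.Q255.IR.D ν (Nat.primeCounting x) ≤ (x : ℝ) ^ ε := by
  unfold SmallInformation
  simp only [info_eq]

/-- the power of two above `t` -/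
theorem pow_above {t : ℝ} (ht : 1 ≤ t) : ∃ J : ℕ, t ≤ 2 ^ J ∧ (2 : ℝ) ^ J ≤ 2 * t := by
  obtain ⟨n, h1, h2⟩ := exists_nat_pow_near ht (by norm_num : (1 : ℝ) < 2)
  refine ⟨n + 1, h2.le, ?_⟩
  rw [pow_succ]
  linarith

theorem scale_le {ε X H C : ℝ} {J : ℕ} (hε : 0 < ε) (hX : 1 ≤ X) (hJ : (2 : ℝ) ^ J ≤ 2 * X) (hC : 0 ≤ C) :
    C * (2 : ℝ) ^ (ε * J) * √H ≤ C * 2 ^ ε * X ^ ε * √H := by
  have h1 : (2 : ℝ) ^ (ε * J) ≤ 2 ^ ε * X ^ ε :=
    calc (2 : ℝ) ^ (ε * J) = ((2 : ℝ) ^ J) ^ ε := by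
          rw [← Real.rpow_natCast 2 J, ← Real.rpow_mul (by norm_num)]
          congr 1
          ring
      _ ≤ (2 * X) ^ ε := Real.rpow_le_rpow (by positivity) hJ hε.le
      _ = 2 ^ ε * X ^ ε := Real.mul_rpow (by norm_num) (by linarith)
  refine mul_le_mul_of_nonneg_right ?_ (Real.sqrt_nonneg _)
  rw [mul_assoc]
  exact mul_le_mul_of_nonneg_left h1 hC

theorem ma : Pool.Agent.Q255.L2.S_MA :=
  Pool.Agent.Q65.L2N.ma Pool.Agent.Q255.L2.t_ENG2 Pool.Agent.Q224.L2.ME.me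
    (Pool.Agent.Q154.L2.mw Pool.Agent.Q129.L2.mn)

theorem upper (ν : Measure (ℕ → Bool)) [IsProbabilityMeasure ν] (hν : SmallInformation ν) :
    ∀ᵐ ω ∂ν, ∀ ω' : ℕ → Bool, {k | ω' k ≠ ω k}.Finite → ∀ (k : ℕ) (ε : ℝ), 1 ≤ k → 0 < ε →
      ∃ C : ℝ, ∀ (X : ℝ) (N : ℕ) (T₁ T₂ : ℝ), 1 ≤ N → N ≤ X → -X ≤ T₁ → T₁ ≤ T₂ → T₂ ≤ X →
        |(∫ t in T₁..T₂, ‖Z (f ω') N t‖ ^ (2 * k)) - (T₂ - T₁) * diagonal k N| ≤
          C * X ^ ε * √(1 + (T₂ - T₁)) := by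
  refine Pool.Agent.Q255.L2.ae_fin0 (fun ν' _ hν' => ?_) ν ((small_iff ν).1 hν)
  filter_upwards [ma ν' hν'] with ω hω k ε hk hε
  obtain ⟨C, hC⟩ := hω k ε hk hε
  refine ⟨max C 0 * 2 ^ ε, fun X N T₁ T₂ hN hNX h1 h12 h2 => ?_⟩
  have hX : 1 ≤ X := le_trans (by exact_mod_cast hN) hNX
  obtain ⟨J, hJ1, hJ2⟩ := pow_above hX
  have h4 : (N : ℝ) ≤ 2 ^ J := hNX.trans hJ1
  refine (hC J N T₁ T₂ hN (by exact_mod_cast h4) (by linarith) h12 (h2.trans hJ1)).trans ?_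
  refine le_trans ?_ (scale_le hε hX hJ2 (le_max_right C 0))
  exact mul_le_mul_of_nonneg_right (mul_le_mul_of_nonneg_right (le_max_left _ _) (by positivity))
    (Real.sqrt_nonneg _)

/-- **All moments of random Dirichlet polynomials on the critical line over all intervals, all joint laws of small
information.**

1. `I(x) ≤ x^{o(1)}`: almost surely, for every `f'` equal to `f` at all but finitely many primes, all `k ≥ 1` and `ε > 0`
there is `C` with `|∫_{T₁}^{T₂} |Z_N(t)|^{2k} dt - (T₂ - T₁) ∑_n d_{k,N}(n)²/n| ≤ C X^ε √(1 + T₂ - T₁)` for all real `X`, all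
`1 ≤ N ≤ X` and all `-X ≤ T₁ ≤ T₂ ≤ X`.
2. For every `0 < δ < 1` there is a law with `I(x) ≤ C x^δ` such that for all `k ≥ 1` there is `c > 0` with
`E ∫_{-1}^1 |Z_N(t)|^{2k} dt ≥ c N^{kδ}` for all `N ≥ 1`. -/
theorem result :
    (∀ (ν : Measure (ℕ → Bool)) [IsProbabilityMeasure ν], SmallInformation ν →
      ∀ᵐ ω ∂ν, ∀ ω' : ℕ → Bool, {k | ω' k ≠ ω k}.Finite → ∀ (k : ℕ) (ε : ℝ), 1 ≤ k → 0 < ε →
        ∃ C : ℝ, ∀ (X : ℝ) (N : ℕ) (T₁ T₂ : ℝ), 1 ≤ N → N ≤ X → -X ≤ T₁ → T₁ ≤ T₂ → T₂ ≤ X →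
          |(∫ t in T₁..T₂, ‖Z (f ω') N t‖ ^ (2 * k)) - (T₂ - T₁) * diagonal k N| ≤
            C * X ^ ε * √(1 + (T₂ - T₁))) ∧
    (∀ δ : ℝ, 0 < δ → δ < 1 → ∃ ν : Measure (ℕ → Bool), IsProbabilityMeasure ν ∧
      (∃ C : ℝ, ∀ x : ℕ, 1 ≤ x → information ν x ≤ C * (x : ℝ) ^ δ) ∧
      ∀ k : ℕ, 1 ≤ k → ∃ c : ℝ, 0 < c ∧ ∀ N : ℕ, 1 ≤ N →
        c * (N : ℝ) ^ (k * δ) ≤ ∫ ω, (∫ t in (-1 : ℝ)..1, ‖Z (f ω) N t‖ ^ (2 * k)) ∂ν) := by
  refine ⟨fun ν _ hν => upper ν hν, fun δ hδ0 hδ1 => ?_⟩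
  obtain ⟨ν, hν, ⟨C, hC⟩, h⟩ := Pool.Agent.Q31.L2.mbl δ hδ0 hδ1
  refine ⟨ν, hν, ⟨C, fun x hx => ?_⟩, h⟩
  rw [info_eq]
  exact hC x hx

end Pool.Agent.Results.MP_39df77_nt.RandomMoments
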