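import Pool.Agent.Q97.RD.Tk

/-!
# The moments of zeta over thick sets

A theorem of Logvinenko–Sereda type for the moments of zeta on the critical line, of every real order
`β > 0` (the sixth moment is `β = 6`). Let `a > 0` and `0 < γ ≤ 1`. There is `c > 0`, depending on
`β`, `a`, `γ` only, such that for all large `T`, all `1 ≤ U ≤ T / log T` and all measurable sets `E` of
real numbers which contain a proportion at least `γ` of each interval of length `a / log T` that
begins at a distance at most `U log T` from `T`,

`∫_E |ζ(1/2+it)|^β w(t) dt ≥ c ∫ |ζ(1/2+it)|^β w(t) dt`, `w(t) = exp(-((t-T)/U)²)`.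

Thus no set which leaves a fixed proportion uncovered at the scale of the mean distance of the
zeros can carry almost the whole moment, and the order of magnitude of every moment can be found
on every thick set.

Proof: a bound for the maxima over a grid of discs of radius `O(1 / log T)` in the mean of order
`β` (Jensen's inequality, Gabriel's convexity theorem), and in the discs in which the maximum is
not much larger than the mean over the interval an inequality of Remez type (Lagrange
interpolation at separated points and Taylor polynomials).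
-/

set_option autoImplicit false

open MeasureTheory Filter Set
open scoped ENNReal

namespace Pool.Agent.Results.MP_39df77_nt.ThickSets

noncomputable section

/-- `|ζ(1/2 + it)|^β` times the Gaussian window of width `U` at `T` -/
def dens (β T U t : ℝ) : ℝ :=
  ‖riemannZeta (1 / 2 + t * Complex.I)‖ ^ β * Real.exp (-((t - T) / U) ^ 2)

/-- `E` contains a proportion at least `γ` of each interval of length `h` that begins at a distance
at most `ℓ` from `T` -/
def Thick (E : Set ℝ) (T ℓ h γ : ℝ) : Prop :=
  ∀ y : ℝ, |y - T| ≤ ℓ → γ * h ≤ volume.real (E ∩ Icc y (y + h))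

theorem dens_eq (β T U t : ℝ) :
    dens β T U t = ‖riemannZeta (((1 / 2 : ℝ) : ℂ) + t * Complex.I)‖ ^ β * Q97.MM.wt T U t := by
  unfold dens
  have : (1 / 2 + t * Complex.I : ℂ) = ((1 / 2 : ℝ) : ℂ) + t * Complex.I := by norm_num
  rw [this]
  rfl

theorem result (β : ℝ) (hβ : 0 < β) (a γ : ℝ) (ha : 0 < a) (hγ : 0 < γ) (hγ1 : γ ≤ 1) :
    ∃ c : ℝ, 0 < c ∧ ∀ᶠ T : ℝ in atTop, ∀ U : ℝ, 1 ≤ U → U ≤ T / Real.log T →
      Integrable (dens β T U) ∧ 0 < ∫ t, dens β T U t ∧
      ∀ E : Set ℝ, MeasurableSet E → Thick E T (U * Real.log T) (a / Real.log T) γ →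
        c * ∫ t, dens β T U t ≤ ∫ t in E, dens β T U t := by
  obtain ⟨c, hc, hcT⟩ := Q97.RD.thick_zeta hβ ha hγ hγ1
  refine ⟨c, hc, ?_⟩
  filter_upwards [hcT, Q97.RB.tilted hβ one_pos one_pos, eventually_ge_atTop 3]
    with T h1 h2 hT U hU1 hU2
  have h : Q97.MM.Adm T U := ⟨hT, hU1, hU2⟩
  have hT0 : 0 < T := by linarith
  have hde : dens β T U =
      fun t : ℝ => ‖riemannZeta (((1 / 2 : ℝ) : ℂ) + t * Complex.I)‖ ^ β * Q97.MM.wt T U t :=
    funext (dens_eq β T U)
  have hint : Integrable (dens β T U) := by
    rw [hde]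
    exact Q97.RB.MB_integrable hβ (T := T) (U := U) (x := 1 / 2) (by linarith) hT0.le
        (hU2.trans (div_le_self hT0.le h.log)) (by norm_num) (by norm_num)
  have hM : ∫ t, dens β T U t = Q97.RB.MB β T U (1 / 2) := by
    rw [hde]
    rfl
  have hd0 : ∀ t, 0 ≤ dens β T U t := fun t => by unfold dens; positivity
  refine ⟨hint, ?_, fun E hE hEt => ?_⟩
  · rw [hM]
    exact (h2 U h).1
  · have hE0 : 0 ≤ ∫ t in E, dens β T U t := setIntegral_nonneg hE fun t _ => hd0 t
    have h3 := h1 U h E hE (fun y hy => by
      have h4 := hEt y hy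
      have h5 : volume (E ∩ Icc y (y + a / Real.log T)) ≠ ∞ :=
        ne_top_of_le_ne_top (by rw [Real.volume_Icc]; exact ENNReal.ofReal_ne_top)
          (measure_mono inter_subset_right)
      have h6 : volume (E ∩ Icc y (y + a / Real.log T)) =
          volume (E ∩ Ico y (y + a / Real.log T)) := by
        apply measure_congr
        exact (Filter.EventuallyEq.refl _ _).inter Ico_ae_eq_Icc.symm
      rw [← h6]
      calc ENNReal.ofReal (γ * (a / Real.log T))
          ≤ ENNReal.ofReal (volume.real (E ∩ Icc y (y + a / Real.log T))) :=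
            ENNReal.ofReal_le_ofReal h4
        _ = _ := ENNReal.ofReal_toReal h5)
    rw [hM, ← ENNReal.ofReal_le_ofReal_iff hE0]
    refine h3.trans (le_of_eq ?_)
    rw [ofReal_integral_eq_lintegral_ofReal hint.integrableOn (Eventually.of_forall hd0)]
    simp only [dens_eq]

end

end Pool.Agent.Results.MP_39df77_nt.ThickSets
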