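import Pool.Agent.Q97.RH.Ord

/-!
# Zeros near the points carrying the moments of zeta, and the order of the moments

`E` is the mean with respect to the probability measure with density proportional to
`|ζ(1/2 + it)|^β exp(-((t-T)/U)²)`, `M` the moment of order `β` in this window, `J(A)` the same at the
distance `A / log T` to the right of the critical line and `ν(t, r)` the sum of
`log (r / |ρ - (1/2 + it)|)` over the zeros `ρ` in the closed disc of radius `r` around `1/2 + it`.
For zeros on the line with the mean density `log T / (2 π)` the value of `ν(t, A / log T)` is `A / π`.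

* For all real `β > 0` the zeros near the points which carry the moment are bounded by the decay of
  the moments off the line: `E exp(β ν(t, A / log T)) ≤ e^(β A / π) (J(A) / M)^(2 / π) + o(1)`.
* For `β = 2 k`, in the windows `T^u ≤ U ≤ T / log T`: unconditionally `J(A) ≤ C A^(-k²) M`, and the points
  which carry the moment see fewer zeros than the mean: `E ν(t, A / log T) ≤ A / π - (k / π) log A + C`.
* If `θ < u`, `θ < k / 2` and the zeros near these points are not too sparse,
  `E ν(t, A / log T) ≥ (1 - 2 θ / k) A / π + δ` for one `A`, then the moment has the expected order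
  of magnitude, `M ≤ C U (log T)^(k²)`. For the sixth moment (`k = 3`, `u` and `θ` near `1`) it is enough
  that there are on the average more than one third as many zeros as near a typical point.

Method: Jensen's formula, the convexity theorem of Gabriel on both sides of the line and the functional
equation give the first inequality; the rest is deduced from the inequalities for the moments off the line
of a teammate's hand-in `MP_80d0cf_nt.DecayOffTheLine`.
-/

set_option autoImplicit false

open MeasureTheory Filter Metric Set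
open scoped ENNReal

namespace Pool.Agent.Results.MP_39df77_nt.ZerosDecideTheOrder

noncomputable section

/-- the multiplicity of a zero of zeta (and `0` at all other points) -/
def mult (ρ : ℂ) : ℕ := analyticOrderNatAt riemannZeta ρ

/-- the logarithmic counting function: the sum of `log (r / |ρ - (1/2 + it)|)` over the zeros in the
closed disc with centre `1/2 + it` and radius `r`, with multiplicities -/
def logcount (t r : ℝ) : ℝ :=
  ∑ᶠ (ρ : ℂ) (_ : ρ ∈ closedBall (1 / 2 + t * Complex.I : ℂ) r),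
    (mult ρ : ℝ) * Real.log (r / ‖(1 / 2 + t * Complex.I : ℂ) - ρ‖)

/-- `|ζ(1/2 + it)|^β` times the Gaussian window of width `U` at `T` -/
def dens (β T U t : ℝ) : ℝ :=
  ‖riemannZeta (1 / 2 + t * Complex.I)‖ ^ β * Real.exp (-((t - T) / U) ^ 2)

/-- the moment `M` on the critical line -/
def moment (β T U : ℝ) : ℝ := ∫ t, dens β T U t

/-- the moment `J` at the distance `a / log T` -/
def J (β T U a : ℝ) : ℝ :=
  ∫ t : ℝ, ‖riemannZeta (((1 / 2 + a / Real.log T : ℝ) : ℂ) + t * Complex.I)‖ ^ β *
    Real.exp (-((t - T) / U) ^ 2)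

/-- the mean of a nonnegative function with respect to the moment measure -/
def mean (β T U : ℝ) (g : ℝ → ℝ) : ℝ≥0∞ :=
  (∫⁻ t, ENNReal.ofReal (g t * dens β T U t)) / ENNReal.ofReal (moment β T U)

theorem pt_eq (t : ℝ) : (1 / 2 + t * Complex.I : ℂ) = ((1 / 2 : ℝ) : ℂ) + t * Complex.I := by
  norm_num

theorem logcount_eq (t r : ℝ) :
    logcount t r = Q97.RB.logcount (((1 / 2 : ℝ) : ℂ) + t * Complex.I) r := by
  unfold logcount
  rw [pt_eq]
  rfl

theorem dens_eq (β T U t : ℝ) :
    dens β T U t = ‖riemannZeta (((1 / 2 : ℝ) : ℂ) + t * Complex.I)‖ ^ β * Q97.MM.wt T U t := by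
  unfold dens
  rw [pt_eq]
  rfl

theorem moment_eq (β T U : ℝ) : moment β T U = Q97.RB.MB β T U (1 / 2) := by
  unfold moment Q97.RB.MB
  simp only [dens_eq]

theorem J_eq (β T U a : ℝ) : J β T U a = Q97.RB.MB β T U (1 / 2 + a / Real.log T) := rfl

theorem quot_eq (β T U a : ℝ) : J β T U a / moment β T U = Q97.RH.QB β T U a := by
  rw [J_eq, moment_eq]
  rfl

theorem mean_le {β T U K : ℝ} {g : ℝ → ℝ} (hM : 0 ≤ moment β T U)
    (h : ∫⁻ t, ENNReal.ofReal (g t * dens β T U t) ≤ ENNReal.ofReal (K * moment β T U)) :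
    mean β T U g ≤ ENNReal.ofReal K := by
  unfold mean
  rcases le_total 0 K with hK | hK
  · rw [ENNReal.ofReal_mul hK] at h
    exact ENNReal.div_le_of_le_mul h
  · rw [ENNReal.ofReal_of_nonpos (mul_nonpos_of_nonpos_of_nonneg hK hM)] at h
    rw [nonpos_iff_eq_zero.mp h, ENNReal.zero_div]
    exact zero_le

/-- See the explanation at the top of the file. -/
theorem result :
    (∀ β : ℝ, 0 < β →
      (∀ᶠ T : ℝ in atTop, ∀ U : ℝ, 1 ≤ U → U ≤ T / Real.log T →
        Integrable (dens β T U) ∧ 0 < moment β T U) ∧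
      ∀ A : ℝ, 0 < A → ∀ ε : ℝ, 0 < ε →
        ∀ᶠ T : ℝ in atTop, ∀ U : ℝ, 1 ≤ U → U ≤ T / Real.log T →
          0 < J β T U A ∧
          mean β T U (fun t => Real.exp (β * logcount t (A / Real.log T))) ≤
            ENNReal.ofReal (Real.exp (β * A / Real.pi) *
              (J β T U A / moment β T U) ^ (2 / Real.pi) + ε) ∧
          mean β T U (fun t => logcount t (A / Real.log T)) ≤
            ENNReal.ofReal (A / Real.pi +
              2 / (Real.pi * β) * Real.log (J β T U A / moment β T U) + ε)) ∧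
    ∀ k : ℕ, 1 ≤ k → ∀ u : ℝ, 0 < u →
      (∃ C : ℝ, ∀ A : ℝ, 0 < A → ∀ᶠ T : ℝ in atTop, ∀ U : ℝ, T ^ u ≤ U → U ≤ T / Real.log T →
        J (2 * k) T U A ≤ C / A ^ (k ^ 2) * moment (2 * k) T U ∧
        mean (2 * k) T U (fun t => logcount t (A / Real.log T)) ≤
          ENNReal.ofReal (A / Real.pi - k / Real.pi * Real.log A + C)) ∧
      ∀ θ : ℝ, 0 ≤ θ → θ < u → 2 * θ < k → ∀ A : ℝ, 0 < A → ∀ δ : ℝ, 0 < δ →
        ∃ C : ℝ, ∀ᶠ T : ℝ in atTop, ∀ U : ℝ, T ^ u ≤ U → U ≤ T / Real.log T →
          ENNReal.ofReal ((1 - 2 * θ / k) * (A / Real.pi) + δ) ≤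
            mean (2 * k) T U (fun t => logcount t (A / Real.log T)) →
          moment (2 * k) T U ≤ C * (U * Real.log T ^ (k ^ 2)) := by
  have hpos : ∀ β : ℝ, 0 < β → ∀ᶠ T : ℝ in atTop, ∀ U : ℝ, 1 ≤ U → U ≤ T / Real.log T →
      Integrable (dens β T U) ∧ 0 < moment β T U := by
    intro β hβ
    filter_upwards [Q97.RB.tilted hβ one_pos one_pos, eventually_ge_atTop 3] with T h1 hT U hU1 hU2
    have h : Q97.MM.Adm T U := ⟨hT, hU1, hU2⟩
    have hT0 : 0 < T := by linarith
    constructor
    · have h2 := Q97.RB.MB_integrable hβ (T := T) (U := U) (x := 1 / 2) (by linarith) hT0.le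
        (hU2.trans (div_le_self hT0.le h.log)) (by norm_num) (by norm_num)
      refine h2.congr (Eventually.of_forall fun t => ?_)
      exact (dens_eq β T U t).symm
    · rw [moment_eq]
      exact (h1 U h).1
  refine ⟨fun β hβ => ⟨hpos β hβ, fun A hA ε hε => ?_⟩, fun k hk u hu => ⟨?_, ?_⟩⟩
  · filter_upwards [hpos β hβ, Q97.RH.main_exp hβ hA hε, Q97.RH.main_log hβ hA hε,
      eventually_ge_atTop 3] with T h0 h1 h2 hT U hU1 hU2
    have h : Q97.MM.Adm T U := ⟨hT, hU1, hU2⟩
    have hM := (h0 U hU1 hU2).2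
    obtain ⟨hQ, -, g2⟩ := h2 U h
    refine ⟨?_, mean_le hM.le ?_, mean_le hM.le ?_⟩
    · rw [← quot_eq] at hQ
      exact (div_pos_iff_of_pos_right hM).mp hQ
    · rw [quot_eq, moment_eq]
      simp only [logcount_eq, dens_eq]
      exact (h1 U h).2
    · rw [quot_eq, moment_eq]
      simp only [logcount_eq, dens_eq]
      exact g2
  · have hk1 : (1 : ℝ) ≤ k := by exact_mod_cast hk
    obtain ⟨C1, hC1, h1⟩ := Q97.RH.Ja_decay hk hu
    obtain ⟨C2, h2⟩ := Q97.RH.deficit hk hu
    refine ⟨max C1 C2, fun A hA => ?_⟩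
    filter_upwards [h1 A hA, h2 A hA, eventually_ge_atTop 3, hpos (2 * k) (by linarith)]
      with T g1 g2 hT g0 U hU1 hU2
    have h : Q97.MM.Adm T U := Q97.RH.adm_of hu hT hU1 hU2
    have hM := (g0 U h.2.1 h.2.2).2
    have hA0 : 0 < A ^ (k ^ 2) := by positivity
    constructor
    · rw [J_eq, Q97.RH.MB_even]
      refine (g1 U hU1 hU2).trans ?_
      rw [Q97.RH.M0_eq, ← moment_eq, ← div_eq_mul_inv]
      gcongr
      exact le_max_left _ _
    · refine (mean_le (K := A / Real.pi - k / Real.pi * Real.log A + C2) hM.le ?_).trans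
        (ENNReal.ofReal_le_ofReal ?_)
      · have g3 := g2 U hU1 hU2
        rw [Q97.RH.M0_eq, ← moment_eq] at g3
        simp only [logcount_eq, dens_eq]
        exact g3
      · have := le_max_right C1 C2
        linarith
  · have hk1 : (1 : ℝ) ≤ k := by exact_mod_cast hk
    intro θ h0 hθ hθk A hA δ hδ
    obtain ⟨C, -, h1⟩ := Q97.RH.criterion hk hu h0 hθ hθk hA hδ
    refine ⟨C, ?_⟩
    filter_upwards [h1, eventually_ge_atTop 3, hpos (2 * k) (by linarith)]
      with T g1 hT g0 U hU1 hU2 hyp
    have h : Q97.MM.Adm T U := Q97.RH.adm_of hu hT hU1 hU2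
    have hM := (g0 U h.2.1 h.2.2).2
    have g2 := g1 U hU1 hU2
    rw [Q97.RH.M0_eq, ← moment_eq] at g2
    refine g2 ?_
    have hK : 0 ≤ (1 - 2 * θ / k) * (A / Real.pi) + δ := by
      have h3 : 2 * θ / k < 1 := by
        rw [div_lt_one (by linarith)]
        exact hθk
      have := Real.pi_pos
      have : 0 ≤ (1 - 2 * θ / k) * (A / Real.pi) := mul_nonneg (by linarith) (by positivity)
      linarith
    rw [ENNReal.ofReal_mul hK]
    unfold mean at hyp
    have hM1 : ENNReal.ofReal (moment (2 * k) T U) ≠ 0 := by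
      rw [Ne, ENNReal.ofReal_eq_zero]
      linarith
    rw [ENNReal.le_div_iff_mul_le (Or.inl hM1) (Or.inl ENNReal.ofReal_ne_top)] at hyp
    refine hyp.trans (le_of_eq ?_)
    simp only [logcount_eq, dens_eq]
    rfl

end

end Pool.Agent.Results.MP_39df77_nt.ZerosDecideTheOrder
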